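import Pool.Agent.H357.GC.Fin

/-!
# The `C`-curve of the knot `8_3` has positive genus

The knot `8_3` is the double twist knot with `2` and `-2` full twists. The cyclotomic function of the double
twist knot `K_{p, r}` is, for `{a} = q ^ (a / 2) - q ^ (- a / 2)`,
`(-1) ^ n q ^ (- n (n + 3) / 2)` times the product of the cyclotomic functions of the twist knots `K_p` and `K_r`
(Habiro, Masbaum; Lauridsen; Lovejoy and Osburn). For `K_2 = 5_2` it is `(-1) ^ n q ^ (n (n + 3) / 2) A_n(q)` and for
`K_{-2} = 6_1` it is `A_n(q⁻¹)`, where `A_n(q) = ∑ q ^ (k (k + 1)) [n, k]_q`. So the cyclotomic function of `8_3` is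
`Jhat n = A_n(q) A_n(q⁻¹)`. (For `n = 1` it is `q ^ 2 + 2 + q ^ (- 2)`, and
`1 + (q ^ 2 - q - q ^ (- 1) + q ^ (- 2)) (q ^ 2 + 2 + q ^ (- 2))` is the Jones polynomial of `8_3`.) This known formula is not
proved here; the theorem is about the explicit function `Jhat`.

The theorem: the polynomial `curve` in `E` and `Q` is irreducible over `ℂ`, the curve `curve = 0` has no
parametrization by rational functions of which at least one is not constant, that is, it is not of genus zero (Lüroth), and
for every operator `P` in `ℤ[q][Q][E]` which annihilates `Jhat`, the polynomial `curve` divides `P(E, Q, 1)`. The normalised generator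
exists, and `P(E, Q, 1)` is not zero for it. So `curve = 0` is an irreducible component of positive genus of the `C`-curve of
`8_3`.

Idea of the proof. `A_n(q)` satisfies a linear system of order two, `v (n + 1) = M(q ^ n, q) v n`, so the vector of the products
satisfies a system of order four with the matrix `M(Q, q) ⊗ M(1 / Q, 1 / q)`. At `q = 1` the characteristic polynomial of this
matrix is `curve`, up to a power of `Q`; its roots are the products of the eigenvalues of `M(Q, 1)` and `M(1 / Q, 1)`, which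
generate the biquadratic extension of `ℂ(Q)` by the square roots of `Q ^ 2 - 2 Q + 5` and `5 Q ^ 2 - 2 Q + 1`. (1) Hence
`curve` is irreducible. (2) In a parametrization by rational functions of `t` the two square roots are in `ℂ(t)`. If `Q = p / r`,
then four different linear forms in `p`, `r` are squares, and a Wronskian argument shows that `Q` is constant.
(3) The rows in `ℂ[q][Q] ^ 4` which are orthogonal to the vector of the products for all large `n` form a module which is
stable under the system. If it is not zero, divide by the highest power of `q - 1` and put `q = 1`: by the irreducibility of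
the characteristic polynomial there are four independent rows, and the vector is zero, a contradiction. So the row given
by `P` is zero, and this means at `q = 1` that `P(E, Q, 1)` is divisible by `curve`.

The lemmas `Pool.Agent.H357.GC.Qb` (recursions of `A_n`) and `Pool.Agent.H357.GC.Gen` (existence of the normalised generator) are by
helper346, the rest is by helper357.
-/

set_option autoImplicit false

open Polynomial

namespace Pool.Agent.Results.MP_4fdcc5_gt.EightThree

/-- the Gaussian binomial coefficients, as polynomials in `q` -/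
noncomputable def gauss : ℕ → ℕ → ℤ[X]
  | _, 0 => 1
  | 0, _ + 1 => 0
  | n + 1, k + 1 => gauss n k + X ^ (k + 1) * gauss n (k + 1)

/-- `A_n(q) = ∑ q ^ (k (k + 1)) [n, k]_q` -/
noncomputable def A (n : ℕ) : ℤ[X] := ∑ k ∈ Finset.range (n + 1), X ^ (k * (k + 1)) * gauss n k

/-- `A_n(q) A_n(q⁻¹)`: by the known formula for double twist knots, the cyclotomic function of the knot `8_3` -/
noncomputable def Jhat (n : ℕ) : RatFunc ℚ :=
  aeval (RatFunc.X : RatFunc ℚ) (A n) * aeval (RatFunc.X : RatFunc ℚ)⁻¹ (A n)

/-- the coefficient `c (Q, q)`, a polynomial in `ℤ[q][Q]`, at `Q = q ^ n` -/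
noncomputable def coeffAt (n : ℕ) (c : ℤ[X][X]) : RatFunc ℚ := aeval (RatFunc.X : RatFunc ℚ) (c.eval (X ^ n))

/-- The operator `P (E, Q, q)`, a polynomial in `ℤ[q][Q][E]` with the coefficients to the left of the powers of
`E`, annihilates `f` at all large `n`: `∑ P_i (q ^ n, q) f (n + i) = 0`. (A left multiple of `P` by a polynomial in `Q`, `q`
then annihilates `f` at all `n`; in the localised algebra this factor is a unit.) -/
def Annihilates (P : ℤ[X][X][X]) (f : ℕ → RatFunc ℚ) : Prop :=
  ∃ N : ℕ, ∀ n : ℕ, N ≤ n → ∑ i ∈ Finset.range (P.natDegree + 1), coeffAt n (P.coeff i) * f (n + i) = 0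

/-- `P` is the normalised generator of the annihilator of `f`: an annihilating operator of minimal order, the coefficients of
which have no common factors but the divisors of monomials -/
structure IsGenerator (P : ℤ[X][X][X]) (f : ℕ → RatFunc ℚ) : Prop where
  ne_zero : P ≠ 0
  annihilates : Annihilates P f
  minimal : ∀ P' : ℤ[X][X][X], P' ≠ 0 → Annihilates P' f → P.natDegree ≤ P'.natDegree
  normalised : ∀ r : ℤ[X][X], C r ∣ P → ∃ i j : ℕ, r ∣ C X ^ i * X ^ j

/-- `P (E, Q, 1)`, a polynomial in `ℤ[Q][E]` -/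
noncomputable def atOne (P : ℤ[X][X][X]) : ℤ[X][X] := P.map (mapRingHom (evalRingHom 1))

/-- the same polynomial with complex coefficients -/
noncomputable def complexify (F : ℤ[X][X]) : ℂ[X][X] := F.map (mapRingHom (Int.castRingHom ℂ))

/-- the value of a polynomial `F (E, Q)` in `ℂ[Q][E]` at `E = x`, `Q = y` in the field `ℂ(t)` -/
noncomputable def value (F : ℂ[X][X]) (x y : RatFunc ℂ) : RatFunc ℂ :=
  F.eval₂ ((aeval y : ℂ[X] →ₐ[ℂ] RatFunc ℂ) : ℂ[X] →+* RatFunc ℂ) x

/-- The curve `F (E, Q) = 0` has a parametrization by rational functions `E = x (t)`, `Q = y (t)` which are not both constant. For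
an irreducible curve this is so if and only if its geometric genus is zero (Lüroth). -/
def Parametrized (F : ℂ[X][X]) : Prop :=
  ∃ x y : RatFunc ℂ, value F x y = 0 ∧
    ¬ ((∃ a : ℂ, x = algebraMap ℂ (RatFunc ℂ) a) ∧ ∃ b : ℂ, y = algebraMap ℂ (RatFunc ℂ) b)

/-- the polynomial of the curve, in `ℂ[Q][E]` -/
noncomputable def curve : ℂ[X][X] :=
  C (X ^ 4) * X ^ 4 - C (X ^ 2 * (X ^ 2 - X + 2) * (2 * X ^ 2 - X + 1)) * X ^ 3 +
    C ((X ^ 2 - X + 2) ^ 2 * (X ^ 4 - X ^ 3) + (2 * X ^ 2 - X + 1) ^ 2 * (1 - X) + 2 * X ^ 3 * (1 - X) ^ 2) * X ^ 2 +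
    C (X * (X ^ 2 - X + 2) * (2 * X ^ 2 - X + 1) * (1 - X) ^ 2) * X + C (X ^ 2 * (1 - X) ^ 4)

theorem gauss_eq : ∀ n k : ℕ, gauss n k = Pool.Agent.H357.GC.qb n k
  | 0, 0 => by rw [gauss, Pool.Agent.H357.GC.qb]
  | n + 1, 0 => by rw [gauss, Pool.Agent.H357.GC.qb]
  | 0, k + 1 => by rw [gauss, Pool.Agent.H357.GC.qb]
  | n + 1, k + 1 => by
    rw [gauss, Pool.Agent.H357.GC.qb, gauss_eq n k, gauss_eq n (k + 1)]

theorem A_eq (n : ℕ) : A n = Pool.Agent.H357.GC.aa n := by
  unfold A Pool.Agent.H357.GC.aa
  exact Finset.sum_congr rfl fun k _ => by rw [gauss_eq]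

theorem Jhat_eq : Jhat = Pool.Agent.H357.GC.Jh := by
  funext n
  unfold Jhat Pool.Agent.H357.GC.Jh
  rw [A_eq, aeval_def, aeval_def]
  have h : algebraMap ℤ (RatFunc ℚ) = Int.castRingHom (RatFunc ℚ) := RingHom.ext_int _ _
  rw [h]

theorem ann_iff (P : ℤ[X][X][X]) (f : ℕ → RatFunc ℚ) : Annihilates P f ↔ Pool.Agent.H357.GC.Ann P f := Iff.rfl

theorem curve_eq : curve = Pool.Agent.H357.GC.chi := rfl

/-- **The `C`-curve of `8_3` has a component of positive genus.** -/
theorem result :
    Irreducible curve ∧ ¬ Parametrized curve ∧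
    (∀ P : ℤ[X][X][X], Annihilates P Jhat → curve ∣ complexify (atOne P)) ∧
    (∃ P : ℤ[X][X][X], IsGenerator P Jhat) ∧
    (∀ P : ℤ[X][X][X], IsGenerator P Jhat → atOne P ≠ 0) := by
  refine ⟨Pool.Agent.H357.GC.chi_irr, ?_, ?_, ?_, ?_⟩
  · rintro ⟨x, y, h, hne⟩
    exact hne (Pool.Agent.H357.GC.no_param x y h)
  · intro P hP
    rw [ann_iff, Jhat_eq] at hP
    have h1 := Pool.Agent.H357.GC.main_dvd P hP
    have h2 : complexify (atOne P) = P.map Pool.Agent.H357.GC.red1 := by
      unfold complexify atOne
      rw [Polynomial.map_map]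
      congr 1
      refine RingHom.ext fun c => ?_
      unfold Pool.Agent.H357.GC.red1
      rw [RingHom.comp_apply, coe_mapRingHom, coe_mapRingHom, coe_mapRingHom, Polynomial.map_map]
    rw [h2, curve_eq]
    exact h1
  · obtain ⟨P, hP0, hP⟩ := Pool.Agent.H357.GC.exists_ann
    obtain ⟨P', h⟩ := Pool.Agent.H357.GC.exists_gen _ P hP0 hP
    rw [← Jhat_eq] at h
    exact ⟨P', h.ne_zero, h.ann, h.minimal, h.normal⟩
  · intro P hP h0
    have h1 : (C (C (X - 1)) : ℤ[X][X][X]) ∣ P := by
      rw [C_dvd_iff_dvd_coeff]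
      intro i
      rw [C_dvd_iff_dvd_coeff]
      intro j
      have h2 := congrArg (fun F : ℤ[X][X] => (F.coeff i).coeff j) h0
      simp only [atOne, coeff_map, coe_mapRingHom, coeff_zero, coe_evalRingHom] at h2
      have h3 := dvd_iff_isRoot.2 (show IsRoot ((P.coeff i).coeff j) 1 from h2)
      rwa [C_1] at h3
    obtain ⟨i, j, h4⟩ := hP.normalised _ h1
    have h5 := map_dvd ((evalRingHom (1 : ℤ)).comp (evalRingHom (1 : ℤ[X]))) h4
    simp at h5

end Pool.Agent.Results.MP_4fdcc5_gt.EightThree
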